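import Pool.Agent.P.MP_263185_co.Defs

/-! The categorical product of graphs. -/

namespace Pool.Agent.P.MP_263185_co.HC

/-- the categorical product: pairs are adjacent if they are adjacent in both coordinates -/
def catProd {V W : Type} (G : SimpleGraph V) (H : SimpleGraph W) : SimpleGraph (V × W) where
  Adj x y := G.Adj x.1 y.1 ∧ H.Adj x.2 y.2
  symm := ⟨fun _ _ h => ⟨h.1.symm, h.2.symm⟩⟩
  loopless := ⟨fun _ h => h.1.ne rfl⟩

end Pool.Agent.P.MP_263185_co.HC
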