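import Pool.Agent.P.MP_263185_co.Core
import Pool.Agent.P.MP_263185_co.HC.Defs

/-! A weighted rank bound, and graphs whose categorical product has small capacity. -/

namespace Pool.Agent.P.MP_263185_co.HC

open Filter Topology Finset

/-- a biorthogonal system has at most as many members as the dimension -/
theorem biorth {F I D : Type} [Field F] [Fintype I] [Fintype D] (α β : I → D → F)
    (h0 : ∀ i j, i ≠ j → ∑ d, α i d * β j d = 0) (h1 : ∀ i, ∑ d, α i d * β i d ≠ 0) :
    Fintype.card I ≤ Fintype.card D := by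
  have li : LinearIndependent F α := by
    rw [Fintype.linearIndependent_iff]
    intro g hg j
    have e : ∑ i, g i * ∑ d, α i d * β j d = 0 := by
      have : ∀ d, ∑ i, g i * α i d = 0 := fun d => by
        simpa [Finset.sum_apply] using congrFun hg d
      simp only [mul_sum, ← mul_assoc]
      rw [sum_comm]
      simp only [← sum_mul, this, zero_mul, sum_const_zero]
    rw [sum_eq_single j (fun i _ hi => by rw [h0 i j hi, mul_zero]) (by simp)] at e
    exact (mul_eq_zero.1 e).resolve_right (h1 j)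
  simpa using li.fintype_card_le_finrank

/-- the weighted rank bound -/
theorem weighted {F V C D : Type} [Field F] [Fintype D] (R : V → V → Prop) (T : V → Finset C)
    (α β : V → C → D → F) (h0 : ∀ v w, R v w → ∀ t t', ∑ d, α v t d * β w t' d = 0)
    (h1 : ∀ v, ∀ t ∈ T v, ∀ t' ∈ T v, t ≠ t' → ∑ d, α v t d * β v t' d = 0)
    (h2 : ∀ v t, ∑ d, α v t d * β v t d ≠ 0) {N : ℕ} (S : Finset (Fin N → V))
    (hS : ∀ x ∈ S, ∀ y ∈ S, x ≠ y → ∃ i, R (x i) (y i)) :
    ∑ x ∈ S, ∏ i, (T (x i)).card ≤ Fintype.card D ^ N := by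
  classical
  have key : ∀ (x y : Fin N → V) (t t' : Fin N → C),
      ∑ d : Fin N → D, (∏ i, α (x i) (t i) (d i)) * ∏ i, β (y i) (t' i) (d i) =
        ∏ i, ∑ d, α (x i) (t i) d * β (y i) (t' i) d := fun x y t t' => by
    rw [Finset.prod_univ_sum, Fintype.piFinset_univ]
    simp only [prod_mul_distrib]
  have h := biorth (F := F) (D := Fin N → D)
    (I := (S.sigma fun x => Fintype.piFinset fun i => T (x i) :
      Finset (Σ _ : Fin N → V, Fin N → C)))
    (fun z d => ∏ i, α (z.1.1 i) (z.1.2 i) (d i)) (fun z d => ∏ i, β (z.1.1 i) (z.1.2 i) (d i))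
    ?_ ?_
  · rw [Fintype.card_coe, card_sigma] at h
    simpa [Fintype.card_piFinset] using h
  · rintro ⟨⟨x, t⟩, hx⟩ ⟨⟨y, t'⟩, hy⟩ hne
    rw [key]
    simp only [mem_sigma, Fintype.mem_piFinset] at hx hy
    by_cases e : x = y
    · subst e
      have : t ≠ t' := fun e => hne (by subst e; rfl)
      obtain ⟨i, hi⟩ := Function.ne_iff.1 this
      exact prod_eq_zero (mem_univ i) (h1 _ _ (hx.2 i) _ (hy.2 i) hi)
    · obtain ⟨i, hi⟩ := hS x hx.1 y hy.1 e
      exact prod_eq_zero (mem_univ i) (h0 _ _ hi _ _)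
  · rintro ⟨⟨x, t⟩, hx⟩
    rw [key]
    exact prod_ne_zero_iff.2 fun i _ => h2 _ _

/-- a low rank matrix that detects Hamming distances divisible by `p` -/
theorem hamming (p k m : ℕ) [Fact p.Prime] :
    ∃ (D : Type) (_ : Fintype D) (_ : Nonempty D) (α β : (Fin k → Fin m) → D → ZMod p),
      Fintype.card D ≤ (k * m + 1) ^ p ∧
      (∀ a b, ¬ p ∣ hammingDist a b → ∑ d, α a d * β b d = 0) ∧
      ∀ a, ∑ d, α a d * β a d ≠ 0 := by
  classical
  let u : (Fin k → Fin m) → Option (Fin k × Fin m) → ZMod p := fun a o =>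
    o.elim 1 fun z => if a z.1 = z.2 then 1 else 0
  let w : ZMod p → (Fin k → Fin m) → Option (Fin k × Fin m) → ZMod p := fun c b o =>
    o.elim (-c) fun z => if z.2 ≠ b z.1 then 1 else 0
  have uw : ∀ c a b, ∑ o, u a o * w c b o = (hammingDist a b : ZMod p) - c := fun c a b => by
    rw [Fintype.sum_option, Fintype.sum_prod_type]
    simp only [u, w, Option.elim, one_mul, ite_mul, zero_mul, sum_ite_eq, mem_univ, if_true,
      hammingDist, card_filter]
    push_cast
    ring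
  have key : ∀ a b, ∑ d : {c : ZMod p // c ≠ 0} → Option (Fin k × Fin m),
      (∏ c, u a (d c)) * ∏ c, w c.1 b (d c) =
        ∏ c : {c : ZMod p // c ≠ 0}, ((hammingDist a b : ZMod p) - c.1) := fun a b => by
    simp only [← uw]
    rw [Finset.prod_univ_sum, Fintype.piFinset_univ]
    simp only [prod_mul_distrib]
  refine ⟨{c : ZMod p // c ≠ 0} → Option (Fin k × Fin m), inferInstance, inferInstance,
    fun a d => ∏ c, u a (d c), fun b d => ∏ c, w c.1 b (d c), ?_, fun a b h => ?_, fun a => ?_⟩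
  · rw [Fintype.card_fun, Fintype.card_option, Fintype.card_prod, Fintype.card_fin,
      Fintype.card_fin]
    refine Nat.pow_le_pow_right (by omega) ?_
    exact (Fintype.card_subtype_le _).trans (ZMod.card p).le
  · rw [key]
    exact prod_eq_zero (mem_univ ⟨(hammingDist a b : ZMod p),
      fun e => h ((ZMod.natCast_eq_zero_iff _ _).1 e)⟩) (sub_self _)
  · rw [key]
    refine prod_ne_zero_iff.2 fun c _ => ?_
    simpa using c.2

/-- the disjoint union of the graphs given by the primes -/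
def gr {s : ℕ} (p : Fin s → ℕ) (k m : ℕ) : SimpleGraph (Fin s × (Fin k → Fin m)) where
  Adj x y := x.1 = y.1 ∧ x.2 ≠ y.2 ∧ ∀ j, j ≠ x.1 → ¬ p j ∣ hammingDist x.2 y.2
  symm := ⟨fun _ _ h => ⟨h.1.symm, h.2.1.symm, fun j hj => by
    rw [hammingDist_comm]; exact h.2.2 j (h.1 ▸ hj)⟩⟩
  loopless := ⟨fun _ h => h.2.1 rfl⟩

theorem not_conf {V : Type} {G : SimpleGraph V} {N : ℕ} {x y : Fin N → V} :
    ¬ Conf Gᶜ x y ↔ ∃ i, G.Adj (x i) (y i) := by
  unfold Conf
  rw [not_forall]
  refine exists_congr fun i => ?_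
  rw [SimpleGraph.compl_adj]
  constructor
  · intro h
    by_contra c
    exact h ((eq_or_ne _ _).imp_right fun n => ⟨n, c⟩)
  · rintro h (e | e)
    · exact h.ne e
    · exact e.2 h

/-- the diagonal code -/
theorem lower {s : ℕ} (hs : 0 < s) (p : Fin s → ℕ) (k m : ℕ)
    (hp : ∀ d, 0 < d → d ≤ k → ∀ i j, p i ∣ d → p j ∣ d → i = j) :
    m ^ k ≤ codeSize (gr p k m)ᶜ s := by
  classical
  have inj : Function.Injective fun (a : Fin k → Fin m) (i : Fin s) => (i, a) := fun a b e =>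
    congrArg Prod.snd (congrFun e ⟨0, hs⟩)
  have h := le_codeSize (G := (gr p k m)ᶜ)
    (S := univ.image fun (a : Fin k → Fin m) (i : Fin s) => (i, a)) ?_
  · rwa [card_image_of_injective _ inj, card_univ, Fintype.card_fun, Fintype.card_fin,
      Fintype.card_fin] at h
  · intro x hx y hy hne
    obtain ⟨a, -, rfl⟩ := mem_image.1 hx
    obtain ⟨b, -, rfl⟩ := mem_image.1 hy
    have n : a ≠ b := fun e => hne (by rw [e])
    have d1 : 0 < hammingDist a b := hammingDist_pos.2 n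
    have d2 : hammingDist a b ≤ k := hammingDist_le_card_fintype.trans (Fintype.card_fin k).le
    rw [not_conf]
    by_cases c : ∃ i, p i ∣ hammingDist a b
    · obtain ⟨i, hi⟩ := c
      exact ⟨i, rfl, n, fun j hj h => hj (hp _ d1 d2 j i h hi)⟩
    · exact ⟨⟨0, hs⟩, rfl, n, fun j _ h => c ⟨j, h⟩⟩

/-- the bound for one prime -/
theorem upper_one {s : ℕ} (p : Fin s → ℕ) (k m r : ℕ) (hr : 0 < r) (j : Fin s)
    (hj : (p j).Prime) {N : ℕ} (S : Finset (Fin N → (Fin s × (Fin k → Fin m)) × Fin r))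
    (hS : ∀ x ∈ S, ∀ y ∈ S, x ≠ y →
      ∃ i, (catProd (gr p k m) (⊤ : SimpleGraph (Fin r))).Adj (x i) (y i)) :
    ∑ x ∈ S, ∏ i, (if (x i).1.1 = j then 1 else r) ≤ ((k * m + 1) ^ p j * r) ^ N := by
  classical
  have := Fact.mk hj
  obtain ⟨D, _, ⟨d0⟩, α, β, c, h0, h1⟩ := hamming (p j) k m
  have s1 : ∀ a a' : Fin r, ∑ d : D × Fin r, (if d = (d0, a) then (1 : ZMod (p j)) else 0) *
      (if d = (d0, a') then 1 else 0) = if a = a' then 1 else 0 := fun a a' => by
    simp [sum_ite_eq', eq_comm]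
  have s2 : ∀ (a b : Fin k → Fin m) (t t' : Fin r),
      ∑ d : D × Fin r, (if d.2 = t then α a d.1 else 0) * (if d.2 = t' then β b d.1 else 0) =
        if t = t' then ∑ d, α a d * β b d else 0 := fun a b t t' => by
    rw [Fintype.sum_prod_type]
    split_ifs with e
    · subst e
      simp
    · refine sum_eq_zero fun d _ => sum_eq_zero fun z _ => ?_
      by_cases e1 : z = t
      · have : z ≠ t' := fun e2 => e (e1.symm.trans e2)
        simp [this]
      · simp [e1]
  have h := weighted (F := ZMod (p j)) (D := D × Fin r) (C := Fin r)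
    (catProd (gr p k m) (⊤ : SimpleGraph (Fin r))).Adj
    (fun v => if v.1.1 = j then {⟨0, hr⟩} else univ)
    (fun v t d => if v.1.1 = j then (if d = (d0, v.2) then 1 else 0)
      else if d.2 = t then α v.1.2 d.1 else 0)
    (fun v t d => if v.1.1 = j then (if d = (d0, v.2) then 1 else 0)
      else if d.2 = t then β v.1.2 d.1 else 0) ?_ ?_ ?_ S hS
  · refine le_trans (le_of_eq ?_) (h.trans (Nat.pow_le_pow_left ?_ N))
    · refine sum_congr rfl fun x _ => prod_congr rfl fun i _ => ?_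
      split_ifs <;> simp
    · rw [Fintype.card_prod, Fintype.card_fin]
      exact Nat.mul_le_mul_right r c
  · rintro v w ⟨⟨e, -, hv⟩, n⟩ t t'
    by_cases c : v.1.1 = j
    · simp only [← e, c, if_true]
      rw [s1, if_neg n.ne]
    · simp only [← e, c, if_false]
      rw [s2, h0 _ _ (hv j (Ne.symm c)), ite_self]
  · intro v t ht t' ht' n
    by_cases c : v.1.1 = j
    · simp only [c, if_true, mem_singleton] at ht ht'
      exact absurd (ht.trans ht'.symm) n
    · simp only [c, if_false]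
      rw [s2, if_neg n]
  · intro v t
    by_cases c : v.1.1 = j
    · simp only [c, if_true]
      rw [s1, if_pos rfl]
      exact one_ne_zero
    · simp only [c, if_false]
      rw [s2, if_pos rfl]
      exact h1 _

/-- the bound for the product -/
theorem upper {s : ℕ} (hs : 0 < s) (p : Fin s → ℕ) (k m ρ : ℕ) (hρ : 0 < ρ)
    (hp : ∀ j, (p j).Prime) (hh : ∀ j, (k * m + 1) ^ p j ≤ ρ) (N : ℕ) :
    codeSize (catProd (gr p k m) (⊤ : SimpleGraph (Fin (ρ ^ s))))ᶜ N ≤ s * (ρ ^ 2) ^ N := by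
  classical
  obtain ⟨S, hS, e⟩ := exists_code (catProd (gr p k m) (⊤ : SimpleGraph (Fin (ρ ^ s))))ᶜ N
  rw [← e]
  have r0 : 0 < ρ ^ s := by positivity
  let g : Fin s → (Fin N → (Fin s × (Fin k → Fin m)) × Fin (ρ ^ s)) → ℕ := fun j x =>
    ∏ i, (if (x i).1.1 = j then ρ ^ s else 1)
  have cov : S ⊆ univ.biUnion fun j => S.filter fun x => g j x ≤ ρ ^ N := fun x hx => by
    have : ∏ j, g j x ≤ ∏ _j : Fin s, ρ ^ N := by
      simp only [g]
      rw [Finset.prod_comm]
      simp only [prod_ite_eq, mem_univ, if_true, prod_const, card_univ, Fintype.card_fin]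
      rw [← pow_mul, ← pow_mul, mul_comm]
    by_contra c
    have c' : ∀ j, ρ ^ N < g j x := fun j => not_le.1 fun h =>
      c (mem_biUnion.2 ⟨j, mem_univ j, mem_filter.2 ⟨hx, h⟩⟩)
    exact absurd (prod_lt_prod_of_nonempty (fun j _ => by positivity) (fun j _ => c' j)
      ⟨⟨0, hs⟩, mem_univ _⟩) (not_lt.2 this)
  have one : ∀ j, (S.filter fun x => g j x ≤ ρ ^ N).card ≤ (ρ ^ 2) ^ N := fun j => by
    have h1 := upper_one p k m (ρ ^ s) r0 j (hp j) (S.filter fun x => g j x ≤ ρ ^ N)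
      fun x hx y hy n => not_conf.1 (hS x (mem_filter.1 hx).1 y (mem_filter.1 hy).1 n)
    have h2 : (S.filter fun x => g j x ≤ ρ ^ N).card * (ρ ^ s) ^ N ≤
        (∑ x ∈ S.filter fun x => g j x ≤ ρ ^ N, ∏ i, (if (x i).1.1 = j then 1 else ρ ^ s)) *
          ρ ^ N := by
      rw [sum_mul, ← smul_eq_mul]
      refine card_nsmul_le_sum _ _ _ fun x hx => ?_
      refine le_trans (le_of_eq ?_) (Nat.mul_le_mul_left _ (mem_filter.1 hx).2)
      simp only [g]
      rw [← prod_mul_distrib, ← Fin.prod_const]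
      refine prod_congr rfl fun i _ => ?_
      split_ifs <;> simp
    have h3 : ((k * m + 1) ^ p j * ρ ^ s) ^ N * ρ ^ N ≤ (ρ ^ 2) ^ N * (ρ ^ s) ^ N := by
      rw [← mul_pow, ← mul_pow]
      refine Nat.pow_le_pow_left ?_ N
      calc _ ≤ ρ * ρ ^ s * ρ := Nat.mul_le_mul_right _ (Nat.mul_le_mul_right _ (hh j))
        _ = _ := by ring
    exact Nat.le_of_mul_le_mul_right (h2.trans ((Nat.mul_le_mul_right _ h1).trans h3))
      (by positivity)
  refine (card_le_card cov).trans (card_biUnion_le.trans ?_)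
  simpa using sum_le_card_nsmul univ _ _ fun j _ => one j

/-- the choice of the primes -/
theorem primes (s T : ℕ) (hT : 0 < T) : ∃ p : Fin s → ℕ, (∀ j, (p j).Prime) ∧
    (∀ j, p j ≤ 2 ^ s * T) ∧
      ∀ d, 0 < d → d ≤ T ^ 2 → ∀ i j, p i ∣ d → p j ∣ d → i = j := by
  choose p h1 h2 h3 using fun j : Fin s =>
    Nat.exists_prime_lt_and_le_two_mul (2 ^ (j : ℕ) * T) (by positivity)
  have a : ∀ (j : Fin s) (n : ℕ), (j : ℕ) < n → p j ≤ 2 ^ n * T := fun j n h =>
    (h3 j).trans (by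
      rw [← mul_assoc, ← pow_succ']
      exact Nat.mul_le_mul_right T (Nat.pow_le_pow_right (by norm_num) h))
  have b : ∀ j, T < p j := fun j =>
    lt_of_le_of_lt (Nat.le_mul_of_pos_left T (by positivity)) (h2 j)
  refine ⟨p, h1, fun j => a j s j.2, fun d d0 d1 i j hi hj => ?_⟩
  by_contra n
  have ne : p i ≠ p j := by
    rcases lt_or_gt_of_ne n with h | h
    · exact ((a i j h).trans_lt (h2 j)).ne
    · exact ((a j i h).trans_lt (h2 i)).ne'
  have := Nat.le_of_dvd d0
    (((Nat.coprime_primes (h1 i) (h1 j)).2 ne).mul_dvd_of_dvd_of_dvd hi hj)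
  have := Nat.mul_lt_mul'' (b i) (b j)
  nlinarith

/-- a code gives a lower bound for the limit -/
theorem le_lim {V : Type} [Fintype V] [Nonempty V] (G : SimpleGraph V) (r n : ℕ) (hn : n ≠ 0)
    (hr : 0 < r) (h : r ^ n ≤ codeSize G n) : ∃ θ : ℝ,
      Tendsto (fun k : ℕ => (codeSize G k : ℝ) ^ (1 / (k : ℝ))) atTop (𝓝 θ) ∧ (r : ℝ) ≤ θ := by
  obtain ⟨θ, h1, h2⟩ := exists_limit G
  have r0 : (0 : ℝ) < r := by exact_mod_cast hr
  refine ⟨θ, h1, le_of_forall_lt_imp_le_of_dense fun c hc => ?_⟩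
  have hm : max c (r / 2) < r := max_lt hc (by linarith)
  refine (le_max_left c (r / 2)).trans (h2 _ n hn (by positivity) ?_).le
  calc _ < (r : ℝ) ^ n := pow_lt_pow_left₀ hm (by positivity) hn
    _ ≤ _ := by exact_mod_cast h

/-- an upper bound for the limit -/
theorem lim_le {V : Type} [Fintype V] [Nonempty V] (G : SimpleGraph V) (s B : ℕ) (hs : 0 < s)
    (h : ∀ N, codeSize G N ≤ s * B ^ N) : ∃ θ : ℝ,
      Tendsto (fun k : ℕ => (codeSize G k : ℝ) ^ (1 / (k : ℝ))) atTop (𝓝 θ) ∧ θ ≤ B := by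
  obtain ⟨θ, h1, -⟩ := exists_limit G
  have s0 : (0 : ℝ) < s := by exact_mod_cast hs
  have t : Tendsto (fun k : ℕ => (s : ℝ) ^ (1 / (k : ℝ)) * B) atTop (𝓝 ((s : ℝ) ^ (0 : ℝ) * B)) :=
    (tendsto_const_nhds.rpow tendsto_one_div_atTop_nhds_zero_nat (Or.inl s0.ne')).mul_const _
  rw [Real.rpow_zero, one_mul] at t
  refine ⟨θ, h1, le_of_tendsto_of_tendsto h1 t ?_⟩
  filter_upwards [eventually_gt_atTop 0] with k hk
  have b : (codeSize G k : ℝ) ≤ s * (B : ℝ) ^ k := by exact_mod_cast h k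
  calc _ ≤ (s * (B : ℝ) ^ k) ^ (1 / (k : ℝ)) := Real.rpow_le_rpow (by positivity) b (by positivity)
    _ = _ := by
      rw [Real.mul_rpow s0.le (by positivity), one_div (k : ℝ),
        Real.pow_rpow_inv_natCast (by positivity) hk.ne']

theorem top_code (r : ℕ) : r ^ 1 ≤ codeSize (⊤ : SimpleGraph (Fin r))ᶜ 1 := by
  classical
  have h := le_codeSize (G := (⊤ : SimpleGraph (Fin r))ᶜ) (S := (univ : Finset (Fin 1 → Fin r)))
    fun x _ y _ n => not_conf.2 (Function.ne_iff.1 n)
  simpa using h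

end Pool.Agent.P.MP_263185_co.HC
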